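import Mathlib.Data.Set.Basic

/-!
# Nondeterministic branching programs on bits
-/

set_option autoImplicit false

namespace Pool.Agent.Helper60.BM

/-- A nondeterministic branching program with `S` states on `N` bits: a state queries a bit, and the value of the bit
gives the set of the possible next states, or it is final with a result. -/
structure NProg (N S : ℕ) where
  start : Fin S
  act : Fin S → (Fin N × (Bool → Set (Fin S))) ⊕ Bool

/-- `P.Run I s l z`: on the input `I`, some computation of the program started in the state `s` queries the bits in the
list `l`, in this order, and ends with the result `z`. -/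
inductive NProg.Run {N S : ℕ} (P : NProg N S) (I : Fin N → Bool) : Fin S → List (Fin N) → Bool → Prop
  | final (s : Fin S) (z : Bool) : P.act s = Sum.inr z → P.Run I s [] z
  | query (s s' : Fin S) (x : Fin N) (next : Bool → Set (Fin S)) (l : List (Fin N)) (z : Bool) :
      P.act s = Sum.inl (x, next) → s' ∈ next (I x) → P.Run I s' l z → P.Run I s (x :: l) z

end Pool.Agent.Helper60.BM
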