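import Mathlib.Data.Set.Basic

/-!
# Deterministic branching programs with a pushdown store on bits
-/

set_option autoImplicit false

namespace Pool.Agent.Helper60.BM

/-- The instructions of a program with a pushdown store: query a bit and go on according to its value, push a symbol,
pop the top symbol and go on according to it, or give the result. -/
inductive Act (N q g : ℕ)
  | query (x : Fin N) (next : Bool → Fin q)
  | push (y : Fin g) (next : Fin q)
  | pop (next : Fin g → Fin q)
  | out (z : Bool)

/-- A deterministic branching program with a pushdown store on `N` bits, with `q` states and `g` stack symbols. -/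
structure PProg (N q g : ℕ) where
  start : Fin q
  act : Fin q → Act N q g

/-- `P.Run I s st l z`: on the input `I`, started in the state `s` with the stack `st` (top first), the program queries
the bits in the list `l`, in this order, and ends with the result `z`. -/
inductive PProg.Run {N q g : ℕ} (P : PProg N q g) (I : Fin N → Bool) :
    Fin q → List (Fin g) → List (Fin N) → Bool → Prop
  | final (s : Fin q) (st : List (Fin g)) (z : Bool) : P.act s = .out z → P.Run I s st [] z
  | query (s : Fin q) (st : List (Fin g)) (x : Fin N) (next : Bool → Fin q) (l : List (Fin N)) (z : Bool) :
      P.act s = .query x next → P.Run I (next (I x)) st l z → P.Run I s st (x :: l) z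
  | push (s : Fin q) (st : List (Fin g)) (y : Fin g) (next : Fin q) (l : List (Fin N)) (z : Bool) :
      P.act s = .push y next → P.Run I next (y :: st) l z → P.Run I s st l z
  | pop (s : Fin q) (st : List (Fin g)) (y : Fin g) (next : Fin g → Fin q) (l : List (Fin N)) (z : Bool) :
      P.act s = .pop next → P.Run I (next y) st l z → P.Run I s (y :: st) l z

end Pool.Agent.Helper60.BM
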