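import Pool.Agent.Helper60.BM.Det
import Pool.Agent.Helper60.BM.NDet
import Pool.Agent.Helper60.BM.Push
import Pool.Agent.Helper60.BL.Crisp
import Pool.Agent.Helper99.RTB.Fam

/-!
# From the general models to the models for bits
-/

set_option autoImplicit false

namespace Pool.Agent.Helper60.BM

open Pool.Agent.Helper96.PH (Det)
open Pool.Agent.Helper99.NK (times count_eq_times card_mono)
open Pool.Agent.Helper99.RTB (tr ends_tr card_times card_inputs ptr ptr_outputs ptr_asks)

/-! ## nondeterministic programs -/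

variable {N S : ℕ}

/-- the program in the general model -/
def ofN (P : NProg N S) : Helper74.NW.NProg (Fin N) Bool Bool S where
  start := P.start
  act := P.act

theorem ofN_run (P : NProg N S) (I : Fin N → Bool) {s t : Fin S} {l : List (Fin N)} {z : Bool}
    (h : (ofN P).Run I s l t) (ht : (ofN P).act t = Sum.inr z) : P.Run I s l z := by
  induction h with
  | nil s => exact NProg.Run.final s z ht
  | cons s s' t c next l h1 h2 _ ih => exact NProg.Run.query s s' c next l z h1 h2 (ih ht)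

theorem run_ofN (P : NProg N S) (I : Fin N → Bool) {s : Fin S} {l : List (Fin N)} {z : Bool}
    (h : P.Run I s l z) : ∃ t, (ofN P).Run I s l t ∧ (ofN P).act t = Sum.inr z := by
  induction h with
  | final s z h => exact ⟨s, Helper74.NW.NProg.Run.nil s, h⟩
  | query s s' x next l z h1 h2 _ ih =>
    obtain ⟨t, h3, h4⟩ := ih
    exact ⟨t, Helper74.NW.NProg.Run.cons s s' t x next l h1 h2 h3, h4⟩

theorem ends_ofN (P : NProg N S) (I : Fin N → Bool) (l : List (Fin N)) (z : Bool) :
    (ofN P).Ends I l z ↔ P.Run I P.start l z :=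
  ⟨fun ⟨_, h1, h2⟩ => ofN_run P I h1 h2, fun h => run_ofN P I h⟩

/-! ## deterministic programs -/

/-- the program in the general model -/
def ofD (P : Prog N S) : Helper74.NW.NProg (Fin N) Bool Bool S where
  start := P.start
  act s := (P.act s).map (fun p => (p.1, fun b => {p.2 b})) id

theorem det_ofD (P : Prog N S) : Det (ofD P) := by
  intro s c next h x
  have h0 : (ofD P).act s = (P.act s).map (fun p => (p.1, fun b => {p.2 b})) id := rfl
  rw [h0] at h
  rcases h1 : P.act s with ⟨c', next'⟩ | z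
  · rw [h1] at h
    simp only [Sum.map_inl, Sum.inl.injEq, Prod.mk.injEq] at h
    rw [← h.2]
    exact Set.subsingleton_singleton
  · rw [h1] at h
    simp at h

theorem run_ofD (P : Prog N S) (I : Fin N → Bool) {s : Fin S} {l : List (Fin N)} {z : Bool}
    (h : P.Run I s l z) : ∃ t, (ofD P).Run I s l t ∧ (ofD P).act t = Sum.inr z := by
  induction h with
  | final s z h =>
    refine ⟨s, Helper74.NW.NProg.Run.nil s, ?_⟩
    show (P.act s).map _ id = _
    rw [h]
    rfl
  | query s x next l z h1 _ ih =>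
    obtain ⟨t, h3, h4⟩ := ih
    refine ⟨t, Helper74.NW.NProg.Run.cons s (next (I x)) t x (fun b => {next b}) l ?_ ?_ h3, h4⟩
    · show (P.act s).map _ id = _
      rw [h1]
      rfl
    · exact Set.mem_singleton _

theorem ends_ofD (P : Prog N S) (I : Fin N → Bool) {l : List (Fin N)} {z : Bool}
    (h : P.Run I P.start l z) : (ofD P).Ends I l z := run_ofD P I h

theorem det_tr {C C' W W' : Type} (e : C ≃ C') (u : W ≃ W') (P : Helper74.NW.NProg C' W' W' S)
    (h : Det P) : Det (tr e u P) := by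
  intro s c next hs x
  rcases h1 : P.act s with ⟨c', next'⟩ | z
  · have h2 : (tr e u P).act s = Sum.inl (e.symm c', fun w => next' (u w)) := by
      simp [tr, h1]
    rw [h2] at hs
    simp only [Sum.inl.injEq, Prod.mk.injEq] at hs
    rw [← hs.2]
    exact h s c' next' h1 (u x)
  · have h2 : (tr e u P).act s = Sum.inr (u.symm z) := by
      simp [tr, h1]
    rw [h2] at hs
    simp at hs

/-! ## pushdown programs -/

section push

variable {Q Γ : Type} {q g : ℕ}

/-- the pushdown program with numbers for the states and the symbols -/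
noncomputable def conv (a : Q ↪ Fin q) (b : Γ ↪ Fin g) (P : Helper19.NF.PProg (Fin N) Bool Bool Q Γ) :
    PProg N q g where
  start := a P.start
  act s := match P.act (@Function.invFun _ _ ⟨P.start⟩ a s) with
    | .ask x next => .query x (fun w => a (next w))
    | .push y s' => .push (b y) (a s')
    | .pop next => .pop (Function.extend b (fun y => a (next y)) (fun _ => a P.start))
    | .out z => .out z

theorem conv_act (a : Q ↪ Fin q) (b : Γ ↪ Fin g) (P : Helper19.NF.PProg (Fin N) Bool Bool Q Γ)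
    (s : Q) : (conv a b P).act (a s) = match P.act s with
    | .ask x next => .query x (fun w => a (next w))
    | .push y s' => .push (b y) (a s')
    | .pop next => .pop (Function.extend b (fun y => a (next y)) (fun _ => a P.start))
    | .out z => .out z := by
  have h : @Function.invFun _ _ ⟨P.start⟩ a (a s) = s :=
    @Function.leftInverse_invFun _ _ ⟨P.start⟩ a a.injective s
  show (match P.act (@Function.invFun _ _ ⟨P.start⟩ a (a s)) with
    | .ask x next => .query x (fun w => a (next w))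
    | .push y s' => .push (b y) (a s')
    | .pop next => .pop (Function.extend b (fun y => a (next y)) (fun _ => a P.start))
    | .out z => .out z : Act N q g) = _
  rw [h]

theorem conv_run (a : Q ↪ Fin q) (b : Γ ↪ Fin g) (P : Helper19.NF.PProg (Fin N) Bool Bool Q Γ)
    (I : Fin N → Bool) (z : Bool) (j : ℕ) : ∀ c : Q × List Γ,
    P.act ((P.step I)^[j] c).1 = .out z →
    ∃ l, (conv a b P).Run I (a c.1) (c.2.map b) l z ∧
      ∀ x ∈ l, ∃ m next, P.act ((P.step I)^[m] c).1 = .ask x next := by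
  induction j with
  | zero =>
    intro c h
    refine ⟨[], PProg.Run.final _ _ z ?_, by simp⟩
    have h1 : P.act c.1 = .out z := h
    rw [conv_act, h1]
  | succ j ih =>
    intro c h
    rw [Function.iterate_succ_apply] at h
    rcases hc : P.act c.1 with ⟨x, next⟩ | ⟨y, s'⟩ | next | z'
    · have hs : P.step I c = (next (I x), c.2) := by
        unfold Helper19.NF.PProg.step
        rw [hc]
      rw [hs] at h
      obtain ⟨l, h1, h2⟩ := ih _ h
      refine ⟨x :: l, PProg.Run.query _ _ x (fun w => a (next w)) l z ?_ h1, ?_⟩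
      · rw [conv_act, hc]
      · intro v hv
        rcases List.mem_cons.1 hv with rfl | hv
        · exact ⟨0, next, hc⟩
        · obtain ⟨m, next', h3⟩ := h2 v hv
          refine ⟨m + 1, next', ?_⟩
          rw [Function.iterate_succ_apply, hs]
          exact h3
    · have hs : P.step I c = (s', y :: c.2) := by
        unfold Helper19.NF.PProg.step
        rw [hc]
      rw [hs] at h
      obtain ⟨l, h1, h2⟩ := ih _ h
      refine ⟨l, PProg.Run.push _ _ (b y) (a s') l z ?_ h1, ?_⟩
      · rw [conv_act, hc]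
      · intro v hv
        obtain ⟨m, next', h3⟩ := h2 v hv
        refine ⟨m + 1, next', ?_⟩
        rw [Function.iterate_succ_apply, hs]
        exact h3
    · obtain ⟨s, st⟩ := c
      cases st with
      | nil =>
        have hs : P.step I (s, []) = (s, []) := by
          unfold Helper19.NF.PProg.step
          simp only at hc
          rw [hc]
        rw [hs] at h
        exact ih _ h
      | cons y st =>
        have hs : P.step I (s, y :: st) = (next y, st) := by
          unfold Helper19.NF.PProg.step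
          simp only at hc
          rw [hc]
        rw [hs] at h
        obtain ⟨l, h1, h2⟩ := ih _ h
        refine ⟨l, PProg.Run.pop _ _ (b y)
          (Function.extend b (fun y => a (next y)) (fun _ => a P.start)) l z ?_ ?_, ?_⟩
        · rw [conv_act]
          simp only at hc
          rw [hc]
        · rw [b.injective.extend_apply]
          exact h1
        · intro v hv
          obtain ⟨m, next', h3⟩ := h2 v hv
          refine ⟨m + 1, next', ?_⟩
          rw [Function.iterate_succ_apply, hs]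
          exact h3
    · have hs : P.step I c = c := by
        unfold Helper19.NF.PProg.step
        rw [hc]
      rw [hs] at h
      exact ih _ h

/-- Pushdown programs in the general model give pushdown programs with numbered states. -/
theorem push_of (hQ : Finite Q) (hΓ : Finite Γ) (P : Helper19.NF.PProg (Fin N) Bool Bool Q Γ)
    (h1 : Nat.card Q ≤ q) (h2 : Nat.card Γ ≤ g) (f : (Fin N → Bool) → Bool) (t : ℝ)
    (h : ∀ I, P.Outputs I (f I) ∧ (Nat.card {x // P.Asks I x} : ℝ) ≤ t) :
    ∃ P' : PProg N q g, ∀ I, ∃ l, P'.Run I P'.start [] l (f I) ∧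
      (Nat.card {x // x ∈ l} : ℝ) ≤ t := by
  have emb : ∀ (A : Type) (_ : Finite A) (n : ℕ), Nat.card A ≤ n → Nonempty (A ↪ Fin n) := by
    intro A hA n hn
    let _ := Fintype.ofFinite A
    apply Function.Embedding.nonempty_of_card_le
    rwa [Fintype.card_fin, ← Nat.card_eq_fintype_card]
  obtain ⟨a⟩ := emb Q hQ q h1
  obtain ⟨b⟩ := emb Γ hΓ g h2
  refine ⟨conv a b P, fun I => ?_⟩
  obtain ⟨⟨j, hj⟩, h3⟩ := h I
  obtain ⟨l, h4, h5⟩ := conv_run a b P I (f I) j (P.start, []) hj
  refine ⟨l, h4, le_trans ?_ h3⟩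
  refine card_mono fun x hx => ?_
  exact h5 x hx

end push

/-! ## the two theorems -/

/-- deterministic programs, on average -/
theorem average : ∃ c : ℝ, 0 < c ∧ ∀ N₀ : ℕ, ∃ N ≥ N₀, ∃ f : (Fin N → Bool) → Bool,
    (∀ (S : ℕ) (P : Prog N S), (S : ℝ) ≤ 2 ^ (N : ℝ) ^ c →
      (Nat.card {I // ∃ l, P.Run I P.start l (f I) ∧ (l.length : ℝ) ≤ c * N * Real.logb 2 N} : ℝ) ≤
        (1 / 2 + (N : ℝ) ^ (-c)) * 2 ^ N) ∧
    (∀ (S : ℕ) (P : Prog N S), (S : ℝ) ≤ 2 ^ (N : ℝ) ^ c →
      (Nat.card {I // ∃ l, P.Run I P.start l (f I) ∧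
        (N : ℝ) ^ (1 - c) ≤ Nat.card {x // (l.count x : ℝ) ≤ c * Real.logb 2 N}} : ℝ) ≤
          (1 / 2 + (N : ℝ) ^ (-c)) * 2 ^ N) ∧
    ∃ P : PProg N (N ^ 3) N, ∀ I, ∃ l, P.Run I P.start [] l (f I) ∧
      (Nat.card {x // x ∈ l} : ℝ) ≤ (N : ℝ) ^ (1 - c) := by
  obtain ⟨c, hc, h⟩ := Pool.Agent.Helper60.BL.crisp
  refine ⟨c, hc, fun N₀ => ?_⟩
  obtain ⟨N, hN, f, h1, h2, Q, Γ, hQ, hΓ, P₀, h3, h4, h5⟩ := h N₀
  obtain ⟨u⟩ : Nonempty (ZMod 2 ≃ Bool) := by
    refine ⟨Fintype.equivOfCardEq ?_⟩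
    rw [ZMod.card, Fintype.card_bool]
  obtain ⟨e⟩ : Nonempty (Fin N ≃ Fin N) := ⟨Equiv.refl _⟩
  obtain ⟨f', hf'⟩ : ∃ f' : (Fin N → Bool) → Bool,
    f' = fun I' => u (f ((Equiv.arrowCongr e u).symm I')) := ⟨_, rfl⟩
  have hf : ∀ I, f' (Equiv.arrowCongr e u I) = u (f I) := by
    intro I
    rw [hf']
    simp only
    rw [Equiv.symm_apply_apply]
  have key : ∀ (S : ℕ) (P : Prog N S) (I : Fin N → ZMod 2) (l : List (Fin N)),
      P.Run (Equiv.arrowCongr e u I) P.start l (f' (Equiv.arrowCongr e u I)) →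
      (tr e u (ofD P)).Ends I (l.map e.symm) (f I) := by
    intro S P I l hl
    have h6 := (ends_tr e u (ofD P) I l _).1 (ends_ofD P _ hl)
    rwa [hf, Equiv.symm_apply_apply] at h6
  refine ⟨N, hN, f', fun S P hS => ?_, fun S P hS => ?_, ?_⟩
  · rw [card_inputs e u]
    refine le_trans (card_mono fun I hI => ?_) (h1 S (tr e u (ofD P)) (det_tr e u _ (det_ofD P)) hS)
    obtain ⟨l, hl, hlen⟩ := hI
    exact ⟨l.map e.symm, key S P I l hl, by rwa [List.length_map]⟩
  · rw [card_inputs e u]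
    refine le_trans (card_mono fun I hI => ?_) (h2 S (tr e u (ofD P)) (det_tr e u _ (det_ofD P)) hS)
    obtain ⟨l, hl, hlen⟩ := hI
    refine ⟨l.map e.symm, key S P I l hl, hlen.trans (le_of_eq ?_)⟩
    have h6 : ∀ x, times (l.map e.symm) (e.symm x) = l.count x := by
      intro x
      rw [Pool.Agent.Helper99.RTB.times_map, ← count_eq_times inferInstance inferInstance]
    congr 1
    refine Nat.card_congr (e.symm.subtypeEquiv fun x => ?_)
    rw [h6]
  · refine push_of hQ hΓ (ptr e u P₀) h3 h4 f' _ fun I' => ?_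
    obtain ⟨I, rfl⟩ := (Equiv.arrowCongr e u).surjective I'
    obtain ⟨h6, h7⟩ := h5 I
    refine ⟨?_, le_trans ?_ h7⟩
    · rw [hf]
      exact ptr_outputs e u P₀ I h6
    · refine Nat.cast_le.2 (Nat.card_le_card_of_injective
        (fun x : {x // (ptr e u P₀).Asks (Equiv.arrowCongr e u I) x} =>
          (⟨e.symm x.1, ptr_asks e u P₀ I x.2⟩ : {x // P₀.Asks I x})) ?_)
      intro x y hxy
      have h8 := congrArg (fun z : {x // P₀.Asks I x} => z.1) hxy
      exact Subtype.ext (e.symm.injective h8)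

/-- nondeterministic programs -/
theorem family (δ : ℝ) (hδ : 0 < δ) : ∃ C : ℕ, ∀ (r : ℕ) (e : ℝ), 1 ≤ r → e = 1 / 2 ^ (C * r) →
    ∀ n : ℕ, 2 ^ 2 ^ (C * r) ≤ n → ∃ N : ℕ, n ≤ N ∧ N ≤ n ^ 2 ∧
    ∃ f : (Fin N → Bool) → Bool,
      (∀ (S : ℕ) (P : NProg N S), (S : ℝ) ≤ 2 ^ ((N : ℝ) ^ e) →
        (∀ I l z, P.Run I P.start l z → z = f I) →
        (Nat.card {I // ∃ l z, P.Run I P.start l z ∧ l.length ≤ r * N} : ℝ) ≤
          (N : ℝ) ^ (-e) * 2 ^ N ∧
        (Nat.card {I // (∃ l z, P.Run I P.start l z) ∧ ∀ l z, P.Run I P.start l z →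
            (1 / 2 + δ) * N ≤ Nat.card {x // l.count x ≤ r}} : ℝ) ≤ (N : ℝ) ^ (-e) * 2 ^ N) ∧
      (∀ y, (1 / 2 - (N : ℝ) ^ (-e)) * 2 ^ N ≤ Nat.card {I // f I = y}) ∧
      ∃ P : PProg N (N ^ 3) N, ∀ I, ∃ l, P.Run I P.start [] l (f I) ∧
        (Nat.card {x // x ∈ l} : ℝ) ≤ (N : ℝ) ^ (1 - e) := by
  obtain ⟨C, h⟩ := Pool.Agent.Helper99.RTB.family δ hδ
  refine ⟨C, fun r e hr he n hn => ?_⟩
  obtain ⟨N, hN1, hN2, f, h1, h2, Q, Γ, hQ, hΓ, P₀, h3, h4, h5⟩ := h r e hr he n hn
  refine ⟨N, hN1, hN2, f, fun S P hS hP => ?_, h2, push_of hQ hΓ P₀ h3 h4 f _ h5⟩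
  obtain ⟨h6, h7⟩ := h1 S (ofN P) hS fun I l z hl => hP I l z ((ends_ofN P I l z).1 hl)
  refine ⟨le_trans (card_mono fun I hI => ?_) h6, le_trans (card_mono fun I hI => ?_) h7⟩
  · obtain ⟨l, z, hl, hlen⟩ := hI
    exact ⟨l, z, (ends_ofN P I l z).2 hl, hlen⟩
  · obtain ⟨⟨l, z, hl⟩, hall⟩ := hI
    refine ⟨⟨l, z, (ends_ofN P I l z).2 hl⟩, fun l z hlz => ?_⟩
    refine (hall l z ((ends_ofN P I l z).1 hlz)).trans (le_of_eq ?_)
    congr 1
    refine Nat.card_congr (Equiv.subtypeEquivRight fun x => ?_)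
    rw [← count_eq_times inferInstance inferInstance]

end Pool.Agent.Helper60.BM
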