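import Mathlib.Data.Set.Basic

/-!
# Deterministic branching programs on bits
-/

set_option autoImplicit false

namespace Pool.Agent.Helper60.BM

/-- A deterministic branching program with `S` states on `N` bits: a state queries a bit, and the value of the bit gives
the next state, or it is final with a result. -/
structure Prog (N S : ℕ) where
  start : Fin S
  act : Fin S → (Fin N × (Bool → Fin S)) ⊕ Bool

/-- `P.Run I s l z`: on the input `I`, started in the state `s`, the program queries the bits in the list `l`, in this
order, and ends with the result `z`. -/
inductive Prog.Run {N S : ℕ} (P : Prog N S) (I : Fin N → Bool) : Fin S → List (Fin N) → Bool → Prop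
  | final (s : Fin S) (z : Bool) : P.act s = Sum.inr z → P.Run I s [] z
  | query (s : Fin S) (x : Fin N) (next : Bool → Fin S) (l : List (Fin N)) (z : Bool) :
      P.act s = Sum.inl (x, next) → P.Run I (next (I x)) l z → P.Run I s (x :: l) z

end Pool.Agent.Helper60.BM
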